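import Pool.Agent.helper52.ED.Spec

set_option autoImplicit false

open Complex Metric Set Filter Topology MeasureTheory
open Pool.Agent.helper98.ILF Pool.Agent.helper16.Multibrot HY

noncomputable section

namespace ED

theorem PHP_diff (n : ℕ) (c : ℂ) : Differentiable ℂ (fz n c) := by
  have h : fz n c = fun z => z ^ n + c := rfl
  rw [h]
  exact (differentiable_id.pow n).add_const c

theorem PHP_diffI (n : ℕ) (c : ℂ) (i : ℕ) : Differentiable ℂ ((fz n c)^[i]) :=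
  (PHP_diff n c).iterate i

theorem PHP_der (n : ℕ) (c z : ℂ) : deriv (fz n c) z = n * z ^ (n - 1) := by
  have h : fz n c = fun z => z ^ n + c := rfl
  rw [h, deriv_add_const, deriv_pow_field]

theorem PHP (hKO0 : V3.KO0_stmt) (hMOB : HY.MOB_stmt) : PHP_stmt := by
  intro n c V φ ψ b M y t hSG hM hO
  have hn := hSG.hn
  have hUo : IsOpen UD := isOpen_ball
  have h0 : (0 : ℂ) ∈ UD := mem_ball_self one_pos
  have hφd : ∀ z ∈ UD, DifferentiableAt ℂ φ z := fun z hz =>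
    hSG.rm.dif.differentiableAt (hUo.mem_nhds hz)
  have hφ' : ∀ z ∈ UD, deriv φ z ≠ 0 := hKO0 φ UD hUo hSG.rm.dif hSG.rm.inj
  have hpos : ∀ w ∈ UD, 0 < 1 - ‖w‖ ^ 2 := by
    intro w hw
    have h1 : ‖w‖ < 1 := mem_ball_zero_iff.1 hw
    have h2 : ‖w‖ ^ 2 < 1 := pow_lt_one₀ (norm_nonneg w) h1 (by norm_num)
    linarith
  have hne : ∀ i < t, φ (y i) ≠ 0 := by
    intro i hi h1
    have h2 : y i = 0 := hSG.rm.inj (hO.mem i hi.le) h0 (by rw [h1, hSG.rm.val])
    have h3 := hO.far i hi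
    rw [h2, norm_zero, sub_zero] at h3
    have h4 : (1 / 2 : ℝ) ^ M ≤ (1 / 2 : ℝ) ^ 1 :=
      pow_le_pow_of_le_one (by norm_num) (by norm_num) hM
    rw [pow_one] at h4
    linarith
  have hit : ∀ i ≤ t, (fz n c)^[i] (φ (y 0)) = φ (y i) := by
    intro i
    induction i with
    | zero => intro _; rfl
    | succ i ih =>
      intro hi
      rw [Function.iterate_succ_apply', ih (by omega), hO.stp i (by omega)]
  have hder : ∀ i ≤ t, deriv ((fz n c)^[i]) (φ (y 0)) ≠ 0 := by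
    intro i
    induction i with
    | zero =>
      intro _
      rw [Function.iterate_zero, deriv_id]
      exact one_ne_zero
    | succ i ih =>
      intro hi
      rw [Function.iterate_succ', deriv_comp _ ((PHP_diff n c) _) ((PHP_diffI n c i) _),
        hit i (by omega), PHP_der]
      refine mul_ne_zero (mul_ne_zero ?_ (pow_ne_zero _ (hne i (by omega)))) (ih (by omega))
      exact_mod_cast (by omega : n ≠ 0)
  have hPpos : ∀ i ≤ t, 0 < PhV n c φ y i := by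
    intro i hi
    unfold PhV
    exact div_pos (norm_pos_iff.2 (hder i hi))
      (mul_pos (norm_pos_iff.2 (hφ' _ (hO.mem i hi))) (hpos _ (hO.mem i hi)))
  refine ⟨fun i hi => ⟨hPpos i hi, hit i hi, hder i hi⟩, ?_⟩
  intro i j hij hj H hH hH0 hrel
  have hi : i ≤ t := hij.trans hj
  have hyi := hO.mem i hi
  have hyj := hO.mem j hj
  obtain ⟨_, _, hS0, _, hSd, _, _, _, _, _, hSder, _⟩ := hMOB (y j) hyj
  -- the two sides have the same derivative
  have hHd : DifferentiableAt ℂ H 0 := hH.dif.differentiableAt (hUo.mem_nhds h0)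
  have hφH : DifferentiableAt ℂ φ (H 0) := by rw [hH0]; exact hφd _ hyi
  have hL : deriv (fun x => (fz n c)^[j - i] (φ (H x))) 0 =
      deriv ((fz n c)^[j - i]) (φ (y i)) * (deriv φ (y i) * deriv H 0) := by
    have e1 : HasDerivAt (fun x => φ (H x)) (deriv φ (H 0) * deriv H 0) 0 :=
      hφH.hasDerivAt.comp 0 hHd.hasDerivAt
    have e2 : HasDerivAt (fun x => (fz n c)^[j - i] (φ (H x)))
        (deriv ((fz n c)^[j - i]) (φ (H 0)) * (deriv φ (H 0) * deriv H 0)) 0 :=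
      ((PHP_diffI n c (j - i)) (φ (H 0))).hasDerivAt.comp 0 e1
    rw [hH0] at e2
    exact e2.deriv
  have hR : deriv (fun x => φ (S (y j) (x / 16))) 0 =
      deriv φ (y j) * ((1 - (‖y j‖ : ℂ) ^ 2) * (1 / 16)) := by
    have e0 : HasDerivAt (fun x : ℂ => x / 16) (1 / 16) 0 := (hasDerivAt_id (0 : ℂ)).div_const 16
    have e0' : (0 : ℂ) / 16 = 0 := zero_div _
    have e1 : HasDerivAt (S (y j)) (1 - (‖y j‖ : ℂ) ^ 2) ((0 : ℂ) / 16) := by
      rw [e0', ← hSder]
      exact (hSd.differentiableAt (hUo.mem_nhds h0)).hasDerivAt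
    have e2 : HasDerivAt (S (y j) ∘ fun x : ℂ => x / 16)
        ((1 - (‖y j‖ : ℂ) ^ 2) * (1 / 16)) 0 := HasDerivAt.comp (0 : ℂ) e1 e0
    have e3 : HasDerivAt φ (deriv φ (y j)) (S (y j) ((0 : ℂ) / 16)) := by
      rw [e0', hS0]
      exact (hφd _ hyj).hasDerivAt
    have e4 : HasDerivAt (φ ∘ (S (y j) ∘ fun x : ℂ => x / 16))
        (deriv φ (y j) * ((1 - (‖y j‖ : ℂ) ^ 2) * (1 / 16))) 0 := HasDerivAt.comp (0 : ℂ) e3 e2
    exact e4.deriv
  have hEq : deriv (fun x => (fz n c)^[j - i] (φ (H x))) 0 =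
      deriv (fun x => φ (S (y j) (x / 16))) 0 := by
    apply Filter.EventuallyEq.deriv_eq
    filter_upwards [hUo.mem_nhds h0] with x hx using hrel x hx
  rw [hL, hR] at hEq
  have hN := congrArg (fun z : ℂ => ‖z‖) hEq
  have hreal : ‖(1 - (‖y j‖ : ℂ) ^ 2) * (1 / 16)‖ = (1 - ‖y j‖ ^ 2) / 16 := by
    have e1 : (1 - (‖y j‖ : ℂ) ^ 2) * (1 / 16) = (((1 - ‖y j‖ ^ 2) / 16 : ℝ) : ℂ) := by
      push_cast
      ring
    rw [e1, Complex.norm_real, Real.norm_of_nonneg (by have := hpos _ hyj; positivity)]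
  simp only [norm_mul] at hN
  rw [norm_mul] at hreal
  rw [hreal] at hN
  have hch : ‖deriv ((fz n c)^[j]) (φ (y 0))‖ =
      ‖deriv ((fz n c)^[j - i]) (φ (y i))‖ * ‖deriv ((fz n c)^[i]) (φ (y 0))‖ := by
    have e1 : (fz n c)^[j] = (fz n c)^[j - i] ∘ (fz n c)^[i] := by
      rw [← Function.iterate_add]
      congr 1
      omega
    rw [e1, deriv_comp _ ((PHP_diffI n c (j - i)) _) ((PHP_diffI n c i) _), hit i hi, norm_mul]
  have hdi : 0 < ‖deriv ((fz n c)^[i]) (φ (y 0))‖ := norm_pos_iff.2 (hder i hi)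
  have hdj : 0 < ‖deriv ((fz n c)^[j]) (φ (y 0))‖ := norm_pos_iff.2 (hder j hj)
  have hφi : 0 < ‖deriv φ (y i)‖ := norm_pos_iff.2 (hφ' _ hyi)
  have hφj : 0 < ‖deriv φ (y j)‖ := norm_pos_iff.2 (hφ' _ hyj)
  have hpi := hpos _ hyi
  have hpj := hpos _ hyj
  unfold hd PhV
  rw [hH0]
  have hD : 0 < ‖deriv ((fz n c)^[j - i]) (φ (y i))‖ := by
    rw [hch] at hdj
    exact pos_of_mul_pos_left hdj hdi.le
  rw [hch]
  set D := ‖deriv ((fz n c)^[j - i]) (φ (y i))‖
  set A := ‖deriv ((fz n c)^[i]) (φ (y 0))‖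
  set p := ‖deriv φ (y i)‖
  set q := ‖deriv φ (y j)‖
  set h := ‖deriv H 0‖
  set u := 1 - ‖y i‖ ^ 2
  set v := 1 - ‖y j‖ ^ 2
  rw [eq_div_iff (by positivity)]
  field_simp
  linear_combination (16 : ℝ) * hN

end ED
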